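import Pool.Agent.H8.ZA.Targets

/-!
# Zariski dense orbits, module AXC: the auxiliary polynomial in good coordinates
-/

open MvPolynomial

namespace Pool.Agent.H86.ZA

open Pool.Agent.H8.ZA

namespace AXC

variable {k : Type} [Field k] (N : ℕ)

theorem bc_C (a : k) : bc N (C a) = C (algebraMap k (GF k N) a) := map_C _ _

theorem bc_X (i : Fin 3) : bc N (X i : Po k) = X i := map_X _ _

theorem bc_aeval (f : Tup k) (q : Po k) :
    bc N (aeval f q) = aeval (fun i => bc N (f i)) (bc N q) := by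
  have h : (bc N).comp (aeval f : Po k →ₐ[k] Po k).toRingHom =
      (aeval (fun i => bc N (f i)) : Po (GF k N) →ₐ[GF k N] Po (GF k N)).toRingHom.comp
        (bc N) := by
    apply MvPolynomial.ringHom_ext
    · intro a
      simp only [RingHom.comp_apply, AlgHom.toRingHom_eq_coe, RingHom.coe_coe]
      rw [aeval_C, algebraMap_eq, bc_C, aeval_C, algebraMap_eq]
    · intro i
      simp only [RingHom.comp_apply, AlgHom.toRingHom_eq_coe, RingHom.coe_coe]
      rw [aeval_X, bc_X, aeval_X]
  exact DFunLike.congr_fun h q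

theorem bc_coeff (q : Po k) (m : Fin 3 →₀ ℕ) (h : coeff m q ≠ 0) : coeff m (bc N q) ≠ 0 := by
  unfold bc
  rw [coeff_map]
  exact fun h0 => h ((map_eq_zero_iff _ (algebraMap k (GF k N)).injective).1 h0)

theorem bc_inv {Xt Zt : Tup k} (h : Inv Xt Zt) :
    Inv (fun i => bc N (Xt i)) (fun i => bc N (Zt i)) := by
  constructor
  · funext i
    have := congrFun h.left i
    unfold comp at this ⊢
    rw [← bc_aeval, this, bc_X]
  · funext i
    have := congrFun h.right i
    unfold comp at this ⊢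
    rw [← bc_aeval, this, bc_X]

theorem uu_ne (j : Fin N) (i : Fin 4) : uu k N j i ≠ 0 := by
  unfold uu
  intro h
  have := (map_eq_zero_iff _ (IsFractionRing.injective (MvPolynomial (Fin N × Fin 4) k)
    (GF k N))).1 h
  exact X_ne_zero _ this

/-- a vector killed by finitely many maps with small images -/
theorem exists_common_ker {G : Type} [Field G] {W U : Type} [AddCommGroup W] [Module G W]
    [AddCommGroup U] [Module G U] (V : Submodule G W) {N R : ℕ} (ρ : Fin N → W →ₗ[G] U)
    (hρ : ∀ j, Module.finrank G (Submodule.map (ρ j) V) ≤ R)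
    (hV : N * R < Module.finrank G V) : ∃ s ∈ V, s ≠ 0 ∧ ∀ j, ρ j s = 0 := by
  have hfin : Module.Finite G V := Module.finite_of_finrank_pos (by omega)
  let Φ : V →ₗ[G] (∀ j : Fin N, Submodule.map (ρ j) V) :=
    LinearMap.pi fun j => (ρ j).submoduleMap V
  have h1 : Module.finrank G (∀ j : Fin N, Submodule.map (ρ j) V) < Module.finrank G V := by
    rw [Module.finrank_pi_fintype]
    refine lt_of_le_of_lt (Finset.sum_le_sum fun j _ => hρ j) ?_
    rw [Finset.sum_const, Finset.card_univ, Fintype.card_fin, smul_eq_mul]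
    exact hV
  have h2 := LinearMap.ker_ne_bot_of_finrank_lt (f := Φ) h1
  obtain ⟨s, hs, hs0⟩ := Submodule.exists_mem_ne_zero_of_ne_bot h2
  refine ⟨s.1, s.2, fun h => hs0 (Subtype.ext h), fun j => ?_⟩
  rw [LinearMap.mem_ker] at hs
  have := congrArg Subtype.val (congrFun hs j)
  exact this

end AXC

open AXC

theorem pf_AXC (hISO : T_ISO) (hRNK : T_RNK) (hDIM : T_DIM) (hGNB : T_GNB) (hGNC : T_GNC)
    (hDEN : T_DEN) (hCAL : T_CAL) : T_AXC := by
  intro k _ _ Xt Zt p d e D Λ hinv hd he hD hdΛ heΛ hXt hZt hp hP hPc hXc hZc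
  set N := D ^ 2 with hN
  set kk := 64 * d * D with hkk
  set l := 64 * d * D * Λ with hl
  set XG : Tup (GF k N) := fun i => bc N (Xt i) with hXG
  set ZG : Tup (GF k N) := fun i => bc N (Zt i) with hZG
  set pG := bc N p with hpG
  have hinf : Infinite (GF k N) :=
    Infinite.of_injective (algebraMap k (GF k N)) (algebraMap k (GF k N)).injective
  have hG : Inv XG ZG := bc_inv N hinv
  have hbd : ∀ (q : Po k) (n : ℕ), q.totalDegree ≤ n → (bc N q).totalDegree ≤ n :=
    fun q n h => (Finset.sup_mono (support_map_subset _ _)).trans h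
  have hPG : bc N (aeval Xt p) = aeval XG pG := bc_aeval N Xt p
  have hdim := hDIM (GF k N) (aeval XG pG) D kk l hD (by rw [← hPG]; exact hbd _ _ hP)
    (by rw [← hPG]; exact bc_coeff N _ _ hPc)
  set J := kk * d + (D + l) * d / e + 1 with hJ
  have hJe : kk * (d * e) + (D + l) * d < J * e := by
    have h1 : (D + l) * d < ((D + l) * d / e + 1) * e := by
      have := Nat.lt_div_mul_add (a := (D + l) * d) (b := e) (by omega)
      rw [add_mul ((D + l) * d / e) 1 e, one_mul]
      exact this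
    calc kk * (d * e) + (D + l) * d < kk * (d * e) + ((D + l) * d / e + 1) * e := by omega
      _ = J * e := by rw [hJ]; ring
  have hrk : ∀ j : Fin N, Module.finrank (GF k N) (Submodule.map (rho ZG (uu k N j)).toLinearMap
      (Vsp (aeval XG pG) kk D l)) ≤ J * (kk * d + (l + D) * e + 1) := by
    intro j
    exact hRNK (GF k N) XG ZG pG (uu k N j) d e kk D l J hG (uu_ne N j 3)
      (fun i => hbd _ _ (hXt i)) (fun i => hbd _ _ (hZt i)) (hbd _ _ hp)
      (hGNB k N j Xt d hXc) (hGNC k N j (Zt 0) e (hZt 0) hZc) he hJe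
  have hcal := hCAL d e D Λ hd he hD hdΛ heΛ
  have hlt : N * (J * (kk * d + (l + D) * e + 1)) <
      Module.finrank (GF k N) (Vsp (aeval XG pG) kk D l) := lt_of_lt_of_le hcal hdim
  obtain ⟨s, hsV, hs0, hsρ⟩ := exists_common_ker _ _ hrk hlt
  set S := aeval ZG s with hS
  have hS0 : S ≠ 0 := by
    intro h
    apply hs0
    apply hG.symm.injective
    rw [map_zero]
    exact h
  have hdvd : ∀ j : Fin N, lin (uu k N j) ∣ S := by
    intro j
    have h1 := ((hISO (GF k N) XG ZG (uu k N j) hG (uu_ne N j 3)).2 s).1 (hsρ j)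
    obtain ⟨t, ht⟩ := h1
    refine ⟨aeval ZG t, ?_⟩
    rw [hS, ht, map_mul, hG.aeval_left]
  set B : Set (Po k) := {q | ∃ (a : ℕ) (β : Fin 3 → ℕ), a ≤ 64 * d * D ∧
    ∑ i, β i ≤ 65 * d * D * Λ ∧ q = p ^ a * ∏ i, Zt i ^ β i} with hB
  have hSspan : S ∈ Submodule.span (GF k N) (bc N '' B) := by
    have h1 : Vsp (aeval XG pG) kk D l ≤ Submodule.comap (aeval ZG : Po (GF k N) →ₐ[GF k N]
        Po (GF k N)).toLinearMap (Submodule.span (GF k N) (bc N '' B)) := by
      unfold Vsp
      rw [Submodule.span_le]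
      rintro q ⟨a, i, b, c, ha, hi, hbc, rfl⟩
      apply Submodule.subset_span
      refine ⟨p ^ a * ∏ t, Zt t ^ (![b, c, i] : Fin 3 → ℕ) t, ⟨a, ![b, c, i], ha, ?_, rfl⟩, ?_⟩
      · rw [Fin.sum_univ_three]
        show b + c + i ≤ _
        have h2 : D ≤ d * D * Λ := by
          have : 1 ≤ Λ := hd.trans hdΛ
          calc D = 1 * D * 1 := by ring
            _ ≤ d * D * Λ := Nat.mul_le_mul (Nat.mul_le_mul_right _ hd) this
        have h3 : 65 * d * D * Λ = l + d * D * Λ := by rw [hl]; ring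
        omega
      · rw [Fin.prod_univ_three, AlgHom.toLinearMap_apply]
        simp only [map_mul, map_pow, aeval_X]
        rw [hG.aeval_left]
        show pG ^ a * (ZG 0 ^ b * ZG 1 ^ c * ZG 2 ^ i) = _
        ring
    exact h1 hsV
  obtain ⟨t, t', h1, h2, h3⟩ := hDEN k N B S hS0 hSspan hdvd
  exact ⟨t, t', h1, h2, h3⟩

end Pool.Agent.H86.ZA
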