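import Pool.Agent.H8.ZA.Targets

/-!
# Zariski dense orbits, module BEZ: Bezout's inequality in the affine plane
-/

open MvPolynomial

namespace Pool.Agent.H86.ZA

open Pool.Agent.H8.ZA

namespace BEZ

/-- pairs of natural numbers with bounded sum -/
def S (m : ℕ) : Finset (ℕ × ℕ) :=
  (Finset.range (m + 1)).biUnion fun s => Finset.HasAntidiagonal.antidiagonal s

theorem mem_S {m : ℕ} {p : ℕ × ℕ} : p ∈ S m ↔ p.1 + p.2 ≤ m := by
  unfold S
  simp only [Finset.mem_biUnion, Finset.mem_range, Finset.HasAntidiagonal.mem_antidiagonal]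
  constructor
  · rintro ⟨a, h1, h2⟩
    omega
  · intro h
    exact ⟨_, by omega, rfl⟩

theorem card_S (m : ℕ) : 2 * (S m).card = (m + 1) * (m + 2) := by
  unfold S
  rw [Finset.card_biUnion]
  · simp only [Finset.Nat.card_antidiagonal]
    induction m with
    | zero => rfl
    | succ m ih =>
      rw [Finset.sum_range_succ, mul_add, ih]
      ring
  · intro x _ y _ hxy
    rw [Function.onFun, Finset.disjoint_left]
    intro p hp hq
    rw [Finset.HasAntidiagonal.mem_antidiagonal] at hp hq
    exact hxy (hp.symm.trans hq)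

variable (L : Type) [Field L]

/-- polynomials of degree at most `m` -/
noncomputable abbrev V (m : ℕ) : Submodule L (MvPolynomial (Fin 2) L) := restrictTotalDegree (Fin 2) L m

theorem finrank_V (m : ℕ) :
    2 * Module.finrank L (V L m) = (m + 1) * (m + 2) := by
  rw [← card_S]
  unfold V restrictTotalDegree
  rw [Module.finrank_eq_nat_card_basis (basisRestrictSupport L _)]
  congr 1
  have e : {n : Fin 2 →₀ ℕ | (n.sum fun _ e => e) ≤ m} ≃ {p // p ∈ S m} :=
    ((Finsupp.equivFunOnFinite (α := Fin 2) (M := ℕ)).trans (finTwoArrowEquiv ℕ)).subtypeEquiv (by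
      intro n
      rw [mem_S]
      simp only [Set.mem_ofPred_eq]
      rw [Finsupp.sum_fintype _ _ (fun _ => rfl), Fin.sum_univ_two]
      exact Iff.rfl)
  rw [Nat.card_congr e, Nat.card_eq_fintype_card, Fintype.card_coe]

variable {L}

/-- multiplication by `G` as a map between spaces of polynomials of bounded degree -/
noncomputable def mulV (G : MvPolynomial (Fin 2) L) (m n : ℕ) (h : G.totalDegree + m ≤ n) :
    V L m →ₗ[L] V L n :=
  LinearMap.codRestrict (V L n) ((LinearMap.mulLeft L G).comp (V L m).subtype) (by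
    intro p
    rw [mem_restrictTotalDegree]
    have h1 := (mem_restrictTotalDegree (Fin 2) m p.1).1 p.2
    show (G * (p : MvPolynomial (Fin 2) L)).totalDegree ≤ n
    have h2 := totalDegree_mul G (p : MvPolynomial (Fin 2) L)
    omega)

theorem mulV_coe (G : MvPolynomial (Fin 2) L) (m n : ℕ) (h : G.totalDegree + m ≤ n)
    (p : V L m) : (mulV G m n h p : MvPolynomial (Fin 2) L) = G * p := rfl

variable (G H : MvPolynomial (Fin 2) L)

/-- the map `(p, q) ↦ G p + H q` -/
noncomputable def mu (m : ℕ) :
    (V L (H.totalDegree + m) × V L (G.totalDegree + m)) →ₗ[L]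
      V L (G.totalDegree + H.totalDegree + m) :=
  LinearMap.coprod (mulV G (H.totalDegree + m) _ (by omega))
    (mulV H (G.totalDegree + m) _ (by omega))

/-- the map `r ↦ (-H r, G r)` -/
noncomputable def nu (m : ℕ) :
    V L m →ₗ[L] (V L (H.totalDegree + m) × V L (G.totalDegree + m)) :=
  LinearMap.prod (-(mulV H m _ le_rfl)) (mulV G m _ le_rfl)

variable {G H}

theorem ker_mu_le (hG : G ≠ 0) (hr : IsRelPrime G H) (m : ℕ) :
    LinearMap.ker (mu G H m) ≤ LinearMap.range (nu G H m) := by
  rintro ⟨p, q⟩ hpq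
  rw [LinearMap.mem_ker] at hpq
  have h1 : G * (p : MvPolynomial (Fin 2) L) + H * q = 0 := by
    have := congrArg (fun x : V L _ => (x : MvPolynomial (Fin 2) L)) hpq
    simpa [mu, mulV_coe] using this
  have h2 : G ∣ (q : MvPolynomial (Fin 2) L) := by
    apply hr.dvd_of_dvd_mul_left
    exact ⟨-p, by linear_combination h1⟩
  obtain ⟨r, hr'⟩ := h2
  have h3 : (p : MvPolynomial (Fin 2) L) = -(H * r) := by
    have : G * ((p : MvPolynomial (Fin 2) L) + H * r) = 0 := by
      rw [hr'] at h1
      linear_combination h1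
    rcases mul_eq_zero.1 this with h | h
    · exact absurd h hG
    · linear_combination h
  have hrm : r.totalDegree ≤ m := by
    by_cases hr0 : r = 0
    · rw [hr0]; simp
    · have hq := (mem_restrictTotalDegree (Fin 2) _ q.1).1 q.2
      rw [hr', totalDegree_mul_of_isDomain hG hr0] at hq
      omega
  refine ⟨⟨r, (mem_restrictTotalDegree (Fin 2) _ r).2 hrm⟩, ?_⟩
  apply Prod.ext
  · apply Subtype.ext
    simp [nu, mulV_coe, h3]
  · apply Subtype.ext
    simp [nu, mulV_coe, hr']

theorem finrank_range_mu (hG : G ≠ 0) (hr : IsRelPrime G H) (m : ℕ) :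
    Module.finrank L (V L (G.totalDegree + H.totalDegree + m)) ≤
      Module.finrank L (LinearMap.range (mu G H m)) + G.totalDegree * H.totalDegree := by
  have h1 := LinearMap.finrank_range_add_finrank_ker (mu G H m)
  rw [Module.finrank_prod] at h1
  have h2 : Module.finrank L (LinearMap.ker (mu G H m)) ≤ Module.finrank L (V L m) :=
    (Submodule.finrank_mono (ker_mu_le hG hr m)).trans (LinearMap.finrank_range_le _)
  have e1 := finrank_V L m
  have e2 := finrank_V L (H.totalDegree + m)
  have e3 := finrank_V L (G.totalDegree + m)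
  have e4 := finrank_V L (G.totalDegree + H.totalDegree + m)
  nlinarith

end BEZ

open BEZ

theorem pf_BEZ : T_BEZ := by
  intro L _ G H hG hH hr
  set Q := MvPolynomial (Fin 2) L ⧸ Ideal.span {G, H}
  let φ : (m : ℕ) → V L (G.totalDegree + H.totalDegree + m) →ₗ[L] Q := fun m =>
    (Ideal.Quotient.mkₐ L (Ideal.span {G, H})).toLinearMap.comp (Submodule.subtype _)
  have hφ : ∀ m, Module.finrank L (LinearMap.range (φ m)) ≤ G.totalDegree * H.totalDegree := by
    intro m
    have h1 := LinearMap.finrank_range_add_finrank_ker (φ m)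
    have h2 : LinearMap.range (mu G H m) ≤ LinearMap.ker (φ m) := by
      rintro _ ⟨⟨p, q⟩, rfl⟩
      rw [LinearMap.mem_ker]
      show Ideal.Quotient.mk (Ideal.span {G, H}) _ = 0
      rw [Ideal.Quotient.eq_zero_iff_mem]
      have : ((mu G H m (p, q) : V L _) : MvPolynomial (Fin 2) L) = G * p + H * q := by
        simp [mu, mulV_coe]
      rw [Submodule.subtype_apply, this]
      exact Ideal.add_mem _ (Ideal.mul_mem_right _ _ (Ideal.subset_span (by simp)))
        (Ideal.mul_mem_right _ _ (Ideal.subset_span (by simp)))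
    have h3 := Submodule.finrank_mono h2
    have h4 := finrank_range_mu hG hr m
    omega
  have hmem : ∀ x : Q, ∃ m, ∀ n, m ≤ n → x ∈ LinearMap.range (φ n) := by
    intro x
    obtain ⟨p, rfl⟩ := Ideal.Quotient.mk_surjective x
    refine ⟨p.totalDegree, fun n hn => ⟨⟨p, ?_⟩, rfl⟩⟩
    rw [mem_restrictTotalDegree]
    omega
  have hrank : Module.rank L Q ≤ (G.totalDegree * H.totalDegree : ℕ) := by
    apply rank_le
    intro s hs
    choose m hm using hmem
    have hsub : (s : Set Q) ⊆ LinearMap.range (φ (s.sup m)) := fun x hx =>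
      hm x _ (Finset.le_sup hx)
    have h1 := Submodule.finrank_mono (Submodule.span_le.2 hsub)
    have h2 : Module.finrank L (Submodule.span L (s : Set Q)) = s.card :=
      finrank_span_finset_eq_card hs
    rw [← h2]
    exact h1.trans (hφ _)
  refine ⟨?_, Module.finrank_le_of_rank_le hrank⟩
  rw [← Module.rank_lt_aleph0_iff]
  exact hrank.trans_lt (Cardinal.natCast_lt_aleph0)

end Pool.Agent.H86.ZA
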