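import Pool.Agent.H8.ZA.Targets

/-!
# Zariski dense orbits, module CUR: heights along a periodic curve grow slowly
-/

open MvPolynomial
open Pool.Agent.H12.ZD (pmap)

namespace Pool.Agent.H86.ZA

open Pool.Agent.H8.ZA

namespace CUR

/-! ## Roots of monic polynomials and absolute values -/

theorem na_sum {w : AbsoluteValue Qb ℝ} (hw : NA w) {ι : Type} (s : Finset ι) (x : ι → Qb)
    {B : ℝ} (hB : 0 ≤ B) (h : ∀ j ∈ s, w (x j) ≤ B) : w (∑ j ∈ s, x j) ≤ B := by
  classical
  induction s using Finset.induction_on with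
  | empty => simpa using hB
  | insert a s ha ih =>
    rw [Finset.sum_insert ha]
    exact (hw _ _).trans (max_le (h a (Finset.mem_insert_self _ _))
      (ih fun j hj => h j (Finset.mem_insert_of_mem hj)))

theorem root_eq {P : Polynomial Qb} (hP : P.Monic) {b : Qb} (hb : P.eval b = 0) :
    b ^ P.natDegree = -∑ j ∈ Finset.range P.natDegree, P.coeff j * b ^ j := by
  rw [Polynomial.eval_eq_sum_range, Finset.sum_range_succ, hP.coeff_natDegree, one_mul] at hb
  exact eq_neg_of_add_eq_zero_right hb

theorem natDegree_pos' {P : Polynomial Qb} (hP : P.Monic) {b : Qb} (hb : P.eval b = 0) :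
    1 ≤ P.natDegree := by
  rcases Nat.eq_zero_or_pos P.natDegree with h | h
  · rw [hP.natDegree_eq_zero.1 h] at hb
    simp at hb
  · exact h

theorem root_arch (w : AbsoluteValue Qb ℝ) {P : Polynomial Qb} (hP : P.Monic) {b : Qb}
    (hb : P.eval b = 0) {B : ℝ} (hB : 1 ≤ B) (h : ∀ j, w (P.coeff j) ≤ B) :
    w b ≤ P.natDegree * B := by
  have hD := natDegree_pos' hP hb
  obtain ⟨m, hm⟩ : ∃ m, P.natDegree = m + 1 := ⟨P.natDegree - 1, by omega⟩
  rcases le_or_gt (w b) 1 with h1 | h1
  · have h2 : (1 : ℝ) ≤ P.natDegree := by exact_mod_cast hD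
    nlinarith
  · have h3 : w b ^ (m + 1) ≤ (P.natDegree * B) * w b ^ m := by
      have h4 := congrArg w (root_eq hP hb)
      rw [map_pow, map_neg_eq_map, hm] at h4
      rw [h4]
      refine (w.sum_le _ _).trans ?_
      calc ∑ j ∈ Finset.range (m + 1), w (P.coeff j * b ^ j)
          ≤ ∑ j ∈ Finset.range (m + 1), B * w b ^ m := by
            apply Finset.sum_le_sum
            intro j hj
            rw [map_mul, map_pow]
            apply mul_le_mul (h j) _ (by positivity) (by linarith)
            exact pow_le_pow_right₀ h1.le (by rw [Finset.mem_range] at hj; omega)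
        _ = _ := by
            rw [Finset.sum_const, Finset.card_range, nsmul_eq_mul, hm, mul_assoc]
    rw [pow_succ, mul_comm] at h3
    exact le_of_mul_le_mul_right h3 (by positivity)

theorem root_na {w : AbsoluteValue Qb ℝ} (hw : NA w) {P : Polynomial Qb} (hP : P.Monic) {b : Qb}
    (hb : P.eval b = 0) {B : ℝ} (hB : 1 ≤ B) (h : ∀ j, w (P.coeff j) ≤ B) :
    w b ≤ B := by
  have hD := natDegree_pos' hP hb
  obtain ⟨m, hm⟩ : ∃ m, P.natDegree = m + 1 := ⟨P.natDegree - 1, by omega⟩
  rcases le_or_gt (w b) 1 with h1 | h1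
  · linarith
  · have h3 : w b ^ (m + 1) ≤ B * w b ^ m := by
      have h4 := congrArg w (root_eq hP hb)
      rw [map_pow, map_neg_eq_map, hm] at h4
      rw [h4]
      apply na_sum hw _ _ (by positivity)
      intro j hj
      rw [map_mul, map_pow]
      apply mul_le_mul (h j) _ (by positivity) (by linarith)
      exact pow_le_pow_right₀ h1.le (by rw [Finset.mem_range] at hj; omega)
    rw [pow_succ, mul_comm] at h3
    exact le_of_mul_le_mul_right h3 (by positivity)

variable {K : IntermediateField ℚ Qb}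

/-- the constant from the archimedean absolute values -/
theorem const_arch (F : HFam K) (B : ℝ) (hB : 1 ≤ B) :
    ∃ c : F.ι → ℝ, Const F c ∧ (∀ i ∈ F.arch, c i = B) := by
  classical
  refine ⟨fun i => if i ∈ F.arch then B else 1, ⟨fun i => ?_, ?_⟩, fun i hi => if_pos hi⟩
  · split_ifs
    · exact hB
    · exact le_rfl
  · refine F.arch.finite_toSet.subset fun i hi => ?_
    by_contra hcon
    exact hi (if_neg hcon)

theorem const_prod {F : HFam K} {ι : Type} (s : Finset ι) (c : ι → F.ι → ℝ)
    (h : ∀ j ∈ s, Const F (c j)) :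
    ∃ C : F.ι → ℝ, Const F C ∧ ∀ j ∈ s, ∀ i, c j i ≤ C i := by
  classical
  induction s using Finset.induction_on with
  | empty => exact ⟨_, Const.one F, by simp⟩
  | insert a s ha ih =>
    obtain ⟨C, hC, hC2⟩ := ih fun j hj => h j (Finset.mem_insert_of_mem hj)
    refine ⟨_, (h a (Finset.mem_insert_self _ _)).max hC, fun j hj i => ?_⟩
    rcases Finset.mem_insert.1 hj with rfl | hj
    · exact le_max_left _ _
    · exact (hC2 j hj i).trans (le_max_right _ _)

/-- bound for the root of a monic polynomial whose coefficients are values of polynomials -/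
theorem root_bound (hHUB : T_HUB) (F : HFam K) (Q : Polynomial (Po Qb)) (hQ : Q.Monic) (M : ℕ)
    (hM : ∀ j, (Q.coeff j).totalDegree ≤ M) :
    ∃ C, Const F C ∧ ∀ i (y : Fin 3 → Qb) (b : Qb), (Q.map (eval y)).eval b = 0 →
      F.abv i b ≤ C i * sz (F.abv i) y ^ M := by
  choose c hc hc2 using fun j => hHUB K F (Q.coeff j)
  obtain ⟨C, hC, hC2⟩ := const_prod (F := F) (Finset.range (Q.natDegree + 1)) c
    (fun j _ => hc j)
  obtain ⟨A, hA, hA2⟩ := const_arch F (max 1 Q.natDegree) (le_max_left _ _)
  refine ⟨_, hA.mul hC, fun i y b hb => ?_⟩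
  have hdeg : (Q.map (eval y)).natDegree = Q.natDegree := hQ.natDegree_map _
  have hmon : (Q.map (eval y)).Monic := hQ.map _
  have hs1 : 1 ≤ sz (F.abv i) y := one_le_sz _ _
  have hB1 : 1 ≤ C i * sz (F.abv i) y ^ M :=
    one_le_mul_of_one_le_of_one_le (hC.one_le i) (one_le_pow₀ hs1)
  have hco : ∀ j, F.abv i ((Q.map (eval y)).coeff j) ≤ C i * sz (F.abv i) y ^ M := by
    intro j
    rw [Polynomial.coeff_map]
    rcases lt_or_ge Q.natDegree j with hj | hj
    · rw [Polynomial.coeff_eq_zero_of_natDegree_lt hj, map_zero, map_zero]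
      linarith
    · refine (hc2 j i y).trans ?_
      apply mul_le_mul (hC2 j (Finset.mem_range.2 (by omega)) i)
        (pow_le_pow_right₀ hs1 (hM j)) (by positivity) (hC.pos i).le
  rw [mul_assoc]
  by_cases hi : i ∈ F.arch
  · rw [hA2 i hi]
    have := root_arch (F.abv i) hmon hb hB1 hco
    rw [hdeg] at this
    refine this.trans ?_
    apply mul_le_mul_of_nonneg_right (le_max_right _ _) (by linarith)
  · have := root_na (F.na i hi) hmon hb hB1 hco
    refine this.trans ?_
    exact le_mul_of_one_le_left (by linarith) (hA.one_le i)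

theorem totalDegree_aeval_poly (τ : Po Qb) (p : Polynomial Qb) :
    (Polynomial.aeval τ p).totalDegree ≤ p.natDegree * τ.totalDegree := by
  rw [Polynomial.aeval_eq_sum_range]
  apply totalDegree_finsetSum_le
  intro i hi
  rw [Finset.mem_range] at hi
  refine (totalDegree_smul_le _ _).trans ((totalDegree_pow _ _).trans ?_)
  exact Nat.mul_le_mul_right _ (by omega)

/-! ## The automorphism of the quotient -/

section quot

variable {f f' : Tup Qb} {I : Ideal (Po Qb)}

/-- the automorphism of the quotient -/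
noncomputable def sig (h : Inv f f') (hI : Ideal.comap (aeval f : Po Qb →ₐ[Qb] Po Qb) I = I) :
    (Po Qb ⧸ I) ≃ₐ[Qb] (Po Qb ⧸ I) :=
  Ideal.quotientEquivAlg I I h.equiv (by
    have h1 : Ideal.comap (h.equiv : Po Qb →+* Po Qb) I = I := hI
    have h2 := Ideal.map_comap_of_surjective (h.equiv : Po Qb →+* Po Qb) h.equiv.surjective I
    rw [h1] at h2
    exact h2.symm)

theorem sig_mk (h : Inv f f') (hI : Ideal.comap (aeval f : Po Qb →ₐ[Qb] Po Qb) I = I)
    (q : Po Qb) : sig h hI (Ideal.Quotient.mk I q) = Ideal.Quotient.mk I (aeval f q) := rfl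

theorem sig_pow_mk (h : Inv f f') (hI : Ideal.comap (aeval f : Po Qb →ₐ[Qb] Po Qb) I = I)
    (n : ℕ) (q : Po Qb) : (sig h hI ^ n) (Ideal.Quotient.mk I q) =
      Ideal.Quotient.mk I (aeval (it f n) q) := by
  induction n generalizing q with
  | zero =>
    rw [pow_zero, it_zero, AlgEquiv.one_apply]
    congr 1
    exact (aeval_X_left_apply q).symm
  | succ n ih =>
    rw [pow_succ, AlgEquiv.mul_apply, sig_mk, ih, ← aeval_comp, ← it_succ]

end quot

end CUR

open CUR

theorem pf_CUR (hNOE : T_NOE) (hNDG : T_NDG) (hHUB : T_HUB) : T_CUR := by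
  intro f f' I r hinv hI hI0 hIP hcom
  obtain ⟨s, hs, g, hg, hfin⟩ := hNOE Qb I hI hI0 hIP
  have hmap : ∀ y : Fin 3 → Qb, (∀ q ∈ I, eval y q = 0) → ∀ n : ℕ,
      (pmap f)^[r * n] y = pmap (it (it f r) n) y := by
    intro y _ n
    rw [it_mul, pmap_it]
  rcases Nat.lt_or_ge s 1 with hs0 | hs1
  · -- dimension zero
    obtain rfl : s = 0 := by omega
    have hfinA : (algebraMap Qb (Po Qb ⧸ I)).Finite := by
      have h1 : algebraMap Qb (Po Qb ⧸ I) =
          g.toRingHom.comp (C : Qb →+* MvPolynomial (Fin 0) Qb) := by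
        ext x
        exact (g.commutes x).symm
      rw [h1]
      exact RingHom.Finite.comp hfin (RingHom.Finite.of_surjective _ (C_surjective (Fin 0)))
    have hint : Algebra.IsIntegral Qb (Po Qb ⧸ I) := ⟨hfinA.to_isIntegral⟩
    have hbij := IsAlgClosed.algebraMap_bijective_of_isIntegral (k := Qb) (K := Po Qb ⧸ I)
    choose c hc using fun i : Fin 3 => hbij.2 (Ideal.Quotient.mk I (X i))
    have huniq : ∀ y : Fin 3 → Qb, (∀ q ∈ I, eval y q = 0) → y = c := by
      intro y hy
      funext i
      have h1 : X i - C (c i) ∈ I := by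
        rw [← Ideal.Quotient.eq_zero_iff_mem, map_sub, ← hc i]
        exact sub_self _
      have h2 := hy _ h1
      rw [map_sub, eval_X, eval_C] at h2
      exact sub_eq_zero.1 h2
    refine ⟨0, fun n K F => ⟨F.ht ((pmap f)^[r * n] c), fun y hy => ?_⟩⟩
    rw [huniq y hy]
    simp
  · obtain rfl : s = 1 := by omega
    set g' : Polynomial Qb →ₐ[Qb] (Po Qb ⧸ I) :=
      g.comp (MvPolynomial.uniqueAlgEquiv Qb (Fin 1)).symm.toAlgHom with hg'
    have hg'inj : Function.Injective g' := hg.comp (AlgEquiv.injective _)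
    have hg'fin : g'.Finite :=
      RingHom.Finite.comp hfin (RingHom.Finite.of_surjective _ (AlgEquiv.surjective _))
    obtain ⟨τ, hτ⟩ := Ideal.Quotient.mk_surjective (g' Polynomial.X)
    have hg'eq : ∀ P : Polynomial Qb, g' P = Ideal.Quotient.mk I (Polynomial.aeval τ P) := by
      intro P
      have h1 : g' = (Ideal.Quotient.mkₐ Qb I).comp (Polynomial.aeval τ) := by
        apply Polynomial.algHom_ext
        refine hτ.symm.trans ?_
        rw [AlgHom.comp_apply, Polynomial.aeval_X]
        rfl
      rw [h1]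
      rfl
    have hinvr := hinv.it r
    choose M hM using fun i : Fin 3 => hNDG Qb (Po Qb ⧸ I) g' (sig hinvr hcom)
      (Ideal.Quotient.mk I (X i)) hg'inj hg'fin
    set MM := Finset.univ.sup M with hMM
    refine ⟨MM * τ.totalDegree, fun n K F => ?_⟩
    choose Q hQmon hQdeg hQev using fun i => hM i n
    -- the polynomials with coefficients in `Po Qb`
    have hbound : ∀ i : Fin 3, ∃ C, Const F C ∧ ∀ v (y : Fin 3 → Qb), (∀ q ∈ I, eval y q = 0) →
        F.abv v ((pmap f)^[r * n] y i) ≤ C v * sz (F.abv v) y ^ (MM * τ.totalDegree) := by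
      intro i
      obtain ⟨C, hC, hC2⟩ := root_bound hHUB F
        ((Q i).map (Polynomial.aeval τ : Polynomial Qb →ₐ[Qb] Po Qb).toRingHom)
        ((hQmon i).map _) (MM * τ.totalDegree) (by
          intro j
          rw [Polynomial.coeff_map]
          refine (totalDegree_aeval_poly τ _).trans ?_
          exact Nat.mul_le_mul_right _ ((hQdeg i j).trans (Finset.le_sup (Finset.mem_univ i))))
      refine ⟨C, hC, fun v y hy => hC2 v y _ ?_⟩
      have hev := congrArg (Ideal.Quotient.lift I (eval y) hy) (hQev i)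
      rw [map_zero, Polynomial.hom_eval₂, sig_pow_mk, Ideal.Quotient.lift_mk, aeval_X] at hev
      rw [hmap y hy n]
      rw [Polynomial.map_map, Polynomial.eval_map]
      have e1 : (Ideal.Quotient.lift I (eval y) hy).comp g'.toRingHom =
          (eval y).comp (Polynomial.aeval τ : Polynomial Qb →ₐ[Qb] Po Qb).toRingHom := by
        ext x
        · simp only [RingHom.comp_apply]
          show (Ideal.Quotient.lift I (eval y) hy) (g' _) = _
          rw [hg'eq, Ideal.Quotient.lift_mk]
          rfl
        · simp only [RingHom.comp_apply]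
          show (Ideal.Quotient.lift I (eval y) hy) (g' _) = _
          rw [hg'eq, Ideal.Quotient.lift_mk]
          rfl
      rw [e1] at hev
      exact hev
    choose c hc hc2 using hbound
    obtain ⟨C, hC, hC2⟩ := const_prod (F := F) Finset.univ c (fun j _ => hc j)
    refine ⟨∑ᶠ i, Real.log (C i), fun y hy => ?_⟩
    have h := ht_compare F (x := (pmap f)^[r * n] y) (y := y) (z := y) (n := 1)
      (a := ((MM * τ.totalDegree : ℕ) : ℝ)) (b := 0) 1 (one_mem K) one_ne_zero C hC (by
        intro v
        rw [one_mul, map_one, Real.log_one, add_zero, zero_mul, add_zero, ← Real.log_pow,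
          ← Real.log_mul (pow_pos (sz_pos _ _) _).ne' (hC.pos v).ne']
        apply Real.log_le_log (sz_pos _ _)
        apply sz_le
        · exact one_le_mul_of_one_le_of_one_le (one_le_pow₀ (one_le_sz _ _)) (hC.one_le v)
        · intro i
          refine (hc2 i v y hy).trans ?_
          rw [mul_comm]
          exact mul_le_mul_of_nonneg_left (hC2 i (Finset.mem_univ i) v)
            (pow_pos (sz_pos _ _) _).le)
    rw [one_mul, zero_mul, add_zero] at h
    exact_mod_cast h

end Pool.Agent.H86.ZA
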