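import Pool.Agent.H8.ZA.Targets

/-!
# Zariski dense orbits, module NOE: non principal primes of `k[x_0, x_1, x_2]`
-/

open MvPolynomial

namespace Pool.Agent.H86.ZA

open Pool.Agent.H8.ZA

namespace NOE

/-- integral injective extensions do not lower the dimension -/
theorem dim_le {R S : Type} [CommRing R] [CommRing S] [IsDomain S] [Algebra R S]
    [Algebra.IsIntegral R S] [FaithfulSMul R S] [IsDomain R] :
    ringKrullDim R ≤ ringKrullDim S := by
  refine iSup_le fun l => ?_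
  have hp : (Ideal.comap (algebraMap R S) (⊥ : Ideal S)) = ⊥ := by
    rw [← RingHom.ker_eq_comap_bot, RingHom.ker_eq_bot_iff_eq_zero]
    intro x hx
    exact (FaithfulSMul.algebraMap_eq_zero_iff R S).1 hx
  obtain ⟨Q, -, hQ, hQ2⟩ := Ideal.exists_ideal_over_prime_of_isIntegral (R := R) (S := S)
    l.head.asIdeal (⊥ : Ideal S) (by rw [hp]; exact bot_le)
  have : Q.LiesOver l.head.asIdeal := ⟨hQ2.symm⟩
  obtain ⟨L, hL, -, -⟩ := Ideal.exists_ltSeries_of_hasGoingUp l Q
  rw [← hL]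
  exact le_iSup (fun p : LTSeries (PrimeSpectrum S) => ((p.length : ℕ) : WithBot ℕ∞)) L

end NOE

theorem pf_NOE : T_NOE := by
  intro k _ I hI hI0 hP
  -- an irreducible element of `I`
  obtain ⟨q, hq, hq0⟩ := Submodule.exists_mem_ne_zero_of_ne_bot hI0
  obtain ⟨P, hPI, hPp⟩ : ∃ P ∈ I, Prime P := by
    have hpr : (UniqueFactorizationMonoid.factors q).prod ∈ I :=
      (Ideal.mem_iff_of_associated (UniqueFactorizationMonoid.factors_prod hq0)).2 hq
    obtain ⟨P, hP1, hP2⟩ := (hI.multiset_prod_mem_iff_exists_mem _).1 hpr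
    exact ⟨P, hP2, UniqueFactorizationMonoid.prime_of_factor P hP1⟩
  have hlt : Ideal.span {P} < I := by
    refine lt_of_le_of_ne ((Ideal.span_singleton_le_iff_mem I).2 hPI) fun h => hP P h.symm
  obtain ⟨r, hrI, hrP⟩ := Set.exists_of_ssubset hlt
  have hPpr : (Ideal.span {P}).IsPrime := (Ideal.span_singleton_prime hPp.ne_zero).2 hPp
  have hd1 : ringKrullDim (Po k ⧸ Ideal.span {P}) + 1 ≤ ringKrullDim (Po k) :=
    ringKrullDim_succ_le_of_surjective (Ideal.Quotient.mk _) Ideal.Quotient.mk_surjective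
      (r := P) (mem_nonZeroDivisors_of_ne_zero hPp.ne_zero)
      (Ideal.Quotient.eq_zero_iff_mem.2 (Ideal.mem_span_singleton_self P))
  have hd2 : ringKrullDim (Po k ⧸ I) + 1 ≤ ringKrullDim (Po k ⧸ Ideal.span {P}) :=
    ringKrullDim_succ_le_of_surjective (Ideal.Quotient.factor hlt.le)
      (Ideal.Quotient.factor_surjective hlt.le)
      (r := Ideal.Quotient.mk _ r)
      (mem_nonZeroDivisors_of_ne_zero fun h => hrP (Ideal.Quotient.eq_zero_iff_mem.1 h))
      (by
        rw [Ideal.Quotient.factor_mk]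
        exact Ideal.Quotient.eq_zero_iff_mem.2 hrI)
  have hd3 : ringKrullDim (Po k) = 3 := by
    rw [MvPolynomial.ringKrullDim_of_isNoetherianRing, ringKrullDim_eq_zero_of_field]
    simp
  obtain ⟨s, g, hg, hfin⟩ := exists_finite_inj_algHom_of_fg k (Po k ⧸ I)
  refine ⟨s, ?_, g, hg, hfin⟩
  have hds : ringKrullDim (MvPolynomial (Fin s) k) = s := by
    rw [MvPolynomial.ringKrullDim_of_isNoetherianRing, ringKrullDim_eq_zero_of_field]
    simp
  algebraize [g.toRingHom]
  have hint : Algebra.IsIntegral (MvPolynomial (Fin s) k) (Po k ⧸ I) := ⟨hfin.to_isIntegral⟩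
  have hfs : FaithfulSMul (MvPolynomial (Fin s) k) (Po k ⧸ I) :=
    (faithfulSMul_iff_algebraMap_injective _ _).2 hg
  have hle := NOE.dim_le (R := MvPolynomial (Fin s) k) (S := Po k ⧸ I)
  rw [hds] at hle
  rw [hd3] at hd1
  have h4 : ((s : ℕ) : WithBot ℕ∞) + 1 + 1 ≤ 3 :=
    (add_le_add_left ((add_le_add_left hle 1).trans hd2) 1).trans hd1
  have h5 : (((s + 1 + 1 : ℕ) : ℕ∞) : WithBot ℕ∞) ≤ ((3 : ℕ) : ℕ∞) := by
    push_cast
    exact h4
  have h6 : s + 1 + 1 ≤ 3 := by exact_mod_cast h5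
  omega

end Pool.Agent.H86.ZA
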